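import Mathlib
import Pool.Agent.H.MP_32cd73_al.Grp
import Pool.Agent.H.MP_32cd73_al.An

namespace Pool.Agent.Results.MP_32cd73_al.NotDense

open Finset Pool.Agent.H.MP_32cd73_al
open scoped Pointwise commutatorElement

theorem chars {G : Type} [Group G] [Finite G] [DecidableEq G] (A : Subgroup G)
    (hA : ∀ a ∈ A, ∀ b ∈ A, a * b = b * a) :
    ∃ (ι : Type) (_ : Fintype ι) (χ : ι → G → ℂ), Fintype.card ι = Nat.card A ∧
      (∀ i, ∀ a ∈ A, ∀ b ∈ A, χ i (a * b) = χ i a * χ i b) ∧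
      (∀ i, ∀ a ∈ A, χ i a ^ Nat.card A = 1) ∧
      ∀ a ∈ A, ∑ i, χ i a = if a = 1 then (Nat.card A : ℂ) else 0 := by
  classical
  let _ : CommGroup A := { (inferInstance : Group A) with
    mul_comm := fun a b => Subtype.ext (hA a a.2 b b.2) }
  let _ : Fintype (Additive A) := Fintype.ofFinite _
  have hc : Fintype.card (Additive A) = Nat.card A := by
    rw [← Nat.card_eq_fintype_card]; rfl
  refine ⟨AddChar (Additive A) ℂ, inferInstance,
    fun ψ g => if h : g ∈ A then ψ (Additive.ofMul ⟨g, h⟩) else 0, ?_, ?_, ?_, ?_⟩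
  · rw [AddChar.card_eq, hc]
  · intro ψ a ha b hb
    simp only [dif_pos ha, dif_pos hb, dif_pos (A.mul_mem ha hb)]
    exact ψ.map_add_eq_mul (Additive.ofMul ⟨a, ha⟩) (Additive.ofMul ⟨b, hb⟩)
  · intro ψ a ha
    simp only [dif_pos ha]
    rw [← AddChar.map_nsmul_eq_pow, ← hc, card_nsmul_eq_zero, AddChar.map_zero_eq_one]
  · intro a ha
    simp only [dif_pos ha]
    rw [AddChar.sum_apply_eq_ite, hc]
    simp [Subtype.ext_iff]

theorem coset {G : Type} [Group G] [Fintype G] [DecidableEq G] (H A : Subgroup G) [Fintype H]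
    (hH : H.Normal) (hA : A.Normal) {B : ℕ} (hB : Nat.card A ≤ B) (hAH : A ≤ H)
    (hc : ∀ a ∈ A, ∀ h ∈ H, a * h = h * a) (hk : ∀ h ∈ H, ∀ k ∈ H, ⁅h, k⁆ ∈ A) (x : G) :
    (∑ h : H, if x * h * (x * h) = 1 then (1 : ℂ) else 0) / Fintype.card G ∈
      SS (T B.factorial) B := by
  classical
  have T0 : (0 : ℂ) ∈ T B.factorial := Or.inl rfl
  by_cases hx : ∃ h0 : H, x * h0 * (x * h0) = 1
  swap
  · rw [sum_eq_zero fun h _ => if_neg fun e => hx ⟨h, e⟩, zero_div]
    exact zero_mem_SS T0 _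
  obtain ⟨h0, hy⟩ := hx
  rw [← Equiv.sum_comp (Equiv.mulLeft h0)]
  simp only [Equiv.coe_mulLeft, Subgroup.coe_mul, ← mul_assoc x]
  generalize x * (h0 : G) = y at hy
  have yi : y⁻¹ = y := inv_eq_of_mul_eq_one_right hy
  set q : G → G := fun h => y * h * (y * h) with hq
  have qm : ∀ h ∈ H, ∀ k ∈ H, q k ∈ A → q (h * k) = q h * q k * ⁅h⁻¹, k⁻¹⁆ := by
    intro h hh k hk' hqk
    have e1 : q (h * k) = (y * h * y⁻¹) * (y * k * y⁻¹) * h * k := by
      simp only [hq]; nth_rewrite 2 [← yi]; group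
    have e2 : y * k * y⁻¹ = q k * k⁻¹ := by simp only [hq, yi]; group
    have e3 : y * h * y⁻¹ = q h * h⁻¹ := by simp only [hq, yi]; group
    rw [e1, e2, e3, commutatorElement_def, mul_assoc (q h), ← mul_assoc h⁻¹,
      ← hc _ hqk _ (H.inv_mem hh)]
    group
  let L : Subgroup G :=
    { carrier := {h | h ∈ H ∧ q h ∈ A}
      one_mem' := ⟨H.one_mem, by simp [hq, hy]⟩
      mul_mem' := fun {h k} hh hk' => ⟨H.mul_mem hh.1 hk'.1, by
        rw [qm h hh.1 k hk'.1 hk'.2]
        exact A.mul_mem (A.mul_mem hh.2 hk'.2) (hk _ (H.inv_mem hh.1) _ (H.inv_mem hk'.1))⟩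
      inv_mem' := fun {h} hh => ⟨H.inv_mem hh.1, by
        have := A.inv_mem (hA.conj_mem _ hh.2 h)
        convert this using 1
        simp only [hq, mul_inv_rev, yi]; group⟩ }
  obtain ⟨ι, _, χ, h1, h2, h3, h4⟩ := chars A fun a ha b hb => hc a ha b (hAH hb)
  have Ap : 0 < Nat.card A := Nat.card_pos
  have e1 : (∑ h : H, if q h = 1 then (1 : ℂ) else 0) = ∑ l : L, if q l = 1 then (1 : ℂ) else 0 := by
    rw [← sum_subtype (univ.filter (· ∈ H)) (by simp) (fun h => if q h = 1 then (1 : ℂ) else 0),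
      ← sum_subtype (univ.filter (· ∈ L)) (by simp) (fun h => if q h = 1 then (1 : ℂ) else 0),
      sum_filter, sum_filter]
    refine sum_congr rfl fun g _ => ?_
    by_cases a : q g = 1
    · have : g ∈ H ↔ g ∈ L := ⟨fun h => ⟨h, a ▸ A.one_mem⟩, fun h => h.1⟩
      simp only [this]
    · simp [a]
  have e2 : (∑ l : L, if q l = 1 then (1 : ℂ) else 0) / Fintype.card G =
      ∑ i, (∑ l : L, χ i (q l)) / ((Nat.card A * L.index : ℕ) * Fintype.card L) := by
    rw [← sum_div, sum_comm, sum_congr rfl fun (l : L) _ => h4 _ l.2.2]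
    have : (∑ l : L, if q l = 1 then (Nat.card A : ℂ) else 0) =
        Nat.card A * ∑ l : L, if q l = 1 then (1 : ℂ) else 0 := by
      rw [mul_sum]; simp
    rw [this, ← Nat.card_eq_fintype_card (α := G), ← L.index_mul_card,
      Nat.card_eq_fintype_card (α := L)]
    have : (Nat.card A : ℂ) ≠ 0 := by exact_mod_cast Ap.ne'
    push_cast
    rw [mul_assoc, mul_div_mul_left _ _ this]
  show (∑ h : H, if q h = 1 then (1 : ℂ) else 0) / _ ∈ _
  rw [e1, e2]
  refine sum_mem_SS T0 _ _ (fun i _ => ?_) (by rw [card_univ, h1]; exact hB)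
  have cm : ∀ h k : L, ⁅(h : G)⁻¹, (k : G)⁻¹⁆ ∈ A :=
    fun h k => hk _ (H.inv_mem h.2.1) _ (H.inv_mem k.2.1)
  refine gauss B.factorial_pos (fun l : L => χ i (q l)) (fun h k => χ i ⁅(h : G)⁻¹, (k : G)⁻¹⁆)
    (fun h k => ?_) (fun h h' k => ?_) (fun h k k' => ?_) (fun h => ?_) _
    (Nat.mul_pos Ap (Nat.pos_of_ne_zero Subgroup.index_ne_zero_of_finite))
  · rw [Subgroup.coe_mul, qm _ h.2.1 _ k.2.1 k.2.2, h2 _ _ (A.mul_mem h.2.2 k.2.2) _ (cm h k),
      h2 _ _ h.2.2 _ k.2.2]
  · rw [← h2 _ _ (cm h k) _ (cm h' k)]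
    congr 1
    rw [commutatorElement_def (h' : G)⁻¹, mul_assoc (h' : G)⁻¹, mul_assoc (h' : G)⁻¹, ← mul_assoc,
      hc _ (cm h k) _ (H.inv_mem h'.2.1)]
    simp only [commutatorElement_def, Subgroup.coe_mul]
    group
  · rw [mul_comm, ← h2 _ _ (cm h k') _ (cm h k)]
    congr 1
    have := hc _ (cm h k) _ (H.inv_mem k'.2.1)
    calc ⁅(h : G)⁻¹, ((k * k' : L) : G)⁻¹⁆
        = ⁅(h : G)⁻¹, (k' : G)⁻¹⁆ * ((k' : G)⁻¹ * ⁅(h : G)⁻¹, (k : G)⁻¹⁆) * k' := by
          simp only [commutatorElement_def, Subgroup.coe_mul]; group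
      _ = _ := by rw [← this]; group
  · obtain ⟨c, hc⟩ := Nat.dvd_factorial Ap hB
    rw [hc, pow_mul, h3 _ _ h.2.2, one_pow]

theorem result : ¬ ∀ t : ℝ, 0 ≤ t → t ≤ 1 / 2 → ∀ ε > 0,
    ∃ (G : Type) (_ : Group G) (_ : Finite G),
      |(Nat.card {x : G // orderOf x = 2} : ℝ) / Nat.card G - t| < ε := by
  intro hd
  obtain ⟨B, M, hBM⟩ := exists_H
  have hm := B.factorial_pos
  have T0 : (0 : ℂ) ∈ T B.factorial := Or.inl rfl
  set C : Set ℂ := T B.factorial + SS (SS (T B.factorial) B) M with hC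
  have c1 : IsCompact C := (T_compact hm).add (SS_compact (SS_compact (T_compact hm) _) _)
  have c2 : C.Countable := (T_countable hm).image2 (SS_countable (SS_countable (T_countable hm) _) _) _
  have sub : Set.Icc (1 / 3 : ℝ) (1 / 2) ⊆ Complex.re '' C := by
    intro t ht
    rw [← (c1.image Complex.continuous_re).isClosed.closure_eq, Metric.mem_closure_iff]
    intro ε hε
    obtain ⟨G, _, _, h⟩ := hd t (by linarith [ht.1]) ht.2 (min ε (1 / 12)) (by positivity)
    classical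
    let _ := Fintype.ofFinite G
    set I := univ.filter fun x : G => x * x = 1 with hI
    have Np : 0 < Fintype.card G := Fintype.card_pos
    have Nr : (0 : ℝ) < Fintype.card G := by exact_mod_cast Np
    have e1 : Nat.card {x : G // orderOf x = 2} + 1 = I.card := by
      rw [Nat.card_eq_fintype_card, Fintype.card_subtype, ← card_insert_of_notMem (a := (1 : G)) (by simp)]
      congr 1
      ext x
      simp only [hI, mem_insert, mem_filter, mem_univ, true_and, orderOf_eq_prime_iff, sq]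
      constructor
      · rintro (rfl | h)
        · simp
        · exact h.1
      · intro h; by_cases a : x = 1
        · exact Or.inl a
        · exact Or.inr ⟨h, a⟩
    rw [Nat.card_eq_fintype_card (α := G)] at h
    have e2 : (Nat.card {x : G // orderOf x = 2} : ℝ) = I.card - 1 := by
      rw [← e1]; push_cast; ring
    have h' := abs_lt.1 (h.trans_le (min_le_right _ _))
    have hI4 : Fintype.card G ≤ 4 * I.card := by
      have : (1 / 4 : ℝ) < (Nat.card {x : G // orderOf x = 2} : ℝ) / Fintype.card G := by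
        linarith [ht.1, h'.1]
      rw [lt_div_iff₀ Nr, e2] at this
      have : (Fintype.card G : ℝ) ≤ 4 * I.card := by linarith
      exact_mod_cast this
    obtain ⟨H, A, hH, hA, hi, hB, hAH, hc, hk⟩ := hBM G hI4
    refine ⟨_, ⟨-1 / Fintype.card G + I.card / Fintype.card G, ⟨_, ?_, _, ?_, rfl⟩, rfl⟩, ?_⟩
    · have : (Fintype.card G : ℂ) ≠ 0 := by exact_mod_cast Np.ne'
      refine Or.inr ⟨Fintype.card G, Np, ?_, ?_⟩
      · rw [norm_div, norm_neg, norm_one, Complex.norm_natCast]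
        have : (1 : ℝ) ≤ Fintype.card G := by exact_mod_cast Np
        field_simp
        assumption
      · rw [mul_div_cancel₀ _ this]
        exact SS_mono (Or.inl rfl) Np ⟨-1, Or.inr (Or.inl rfl), 0, rfl, add_zero _⟩
    · have : (I.card : ℂ) = ∑ g : G, if g * g = 1 then (1 : ℂ) else 0 := by
        rw [hI, card_filter]; simp
      rw [this, sum_coset H, sum_div]
      refine sum_mem_SS (zero_mem_SS T0 _) _ _ (fun c _ => coset H A hH hA hB hAH hc hk _) ?_
      rwa [card_univ, ← Nat.card_eq_fintype_card, ← Subgroup.index_eq_card]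
    · have : (-1 / Fintype.card G + I.card / Fintype.card G : ℂ) =
          (((I.card - 1) / Fintype.card G : ℝ) : ℂ) := by push_cast; ring
      rw [this, Complex.ofReal_re, ← e2, dist_comm, Real.dist_eq]
      exact h.trans_le (min_le_left _ _)
  have := ((c2.image _).mono sub).measure_zero MeasureTheory.volume
  rw [Real.volume_Icc] at this
  norm_num at this

end Pool.Agent.Results.MP_32cd73_al.NotDense
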